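import Pool.Agent.Helper93.T53.StD

/-!
# Project T53 (levels `5 * 3^n`), module REL: the relations between the plane functions of a symbol

Model: `Pool/Agent/Helper51/TH3/M_Rel.lean`.
-/

set_option autoImplicit false

namespace Pool.Agent.Helper7.T53

open Pool.Agent.Helper14.CV (Homog EqC act Tl StFar StFex)
open Pool.Agent.Helper28.WK (Tw evw)
open Pool.Agent.Helper78.W3 (tr Fn3 Tm opL op3 mulL negL Wd3 dX dY oD oN Lw sS M5 bb3 S3PlA S3Trm S3Low0 S3Nf S3Exp S3Lw1 S3Bb)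
open Pool.Agent.Helper28.T5 (HTy SymH)
open Pool.Agent.Helper83.T5C (SHHk SHHkS LBH)
open Pool.Agent.Helper93.TLE (DDE)
open Pool.Agent.Helper93.T53

/-- The value at the image of the vector `(u1, u2)` under the standard matrix. -/
private noncomputable def HH {R : Type} {q q' : ℕ} (G : ℤ → ℤ → R) (x : ZMod q) (y : ZMod q')
    (u1 u2 : ℤ) : R :=
  G (u1 + 3 * (x.val : ℤ) * u2) (3 * yT x y * u1 + (1 + 9 * (x.val : ℤ) * yT x y) * u2)

private lemma edge_eq {R : Type} [AddCommGroup R] {q q' : ℕ} (G : ℤ → ℤ → R) (x : ZMod q)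
    (y : ZMod q') (u1 u2 v1 v2 : ℤ) : edgeT u1 u2 v1 v2 G x y = HH G x y u1 u2 - HH G x y v1 v2 :=
  rfl

/-- Scalar multiples of the vector do not matter. -/
private lemma hh_sc {R : Type} {G : ℤ → ℤ → R} (hG : Homog G) {q q' : ℕ} (x : ZMod q)
    (y : ZMod q') (k u1 u2 : ℤ) (hk : k ≠ 0) (hu : u1 ≠ 0 ∨ u2 ≠ 0) :
    HH G x y (k * u1) (k * u2) = HH G x y u1 u2 := by
  have hne : (1 * u1 + 3 * (x.val : ℤ) * u2 ≠ 0 ∨
      (3 * yT x y) * u1 + (1 + 9 * (x.val : ℤ) * yT x y) * u2 ≠ 0) :=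
    Pool.Agent.Helper14.CV.ne_zero_of_det (a := 1) (b := 3 * (x.val : ℤ)) (c := 3 * yT x y)
      (d := 1 + 9 * (x.val : ℤ) * yT x y) (by ring_nf; norm_num) hu
  rw [one_mul] at hne
  unfold HH
  rw [← hG k _ _ hk hne]
  congr 1 <;> ring

/-- Translated paths. -/
private lemma tre {R : Type} [AddCommGroup R] (ht : TTre) {r s : ℕ} {G : ℤ → ℤ → R}
    (hG : SymH 3 (r + 1) (s + 1) G) (x : ZMod (3 ^ r)) (y : ZMod (3 ^ s))
    (a b c d u1 u2 v1 v2 k w1 w2 l z1 z2 : ℤ) (h : HTy a (3 * b) (3 * c) d)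
    (hu : u1 ≠ 0 ∨ u2 ≠ 0) (hv : v1 ≠ 0 ∨ v2 ≠ 0) (hk : k ≠ 0) (hl : l ≠ 0)
    (hw : w1 ≠ 0 ∨ w2 ≠ 0) (hz : z1 ≠ 0 ∨ z2 ≠ 0)
    (e1 : a * u1 + 3 * b * u2 = k * w1) (e2 : 3 * c * u1 + d * u2 = k * w2)
    (e3 : a * v1 + 3 * b * v2 = l * z1) (e4 : 3 * c * v1 + d * v2 = l * z2) :
    tr a b c d (edgeT u1 u2 v1 v2 G) x y = HH G x y w1 w2 - HH G x y z1 z2 := by
  have h1 := ht R _ r s G hG a b c d u1 u2 v1 v2 h hu hv x y
  rw [← h1, edge_eq, e1, e2, e3, e4, hh_sc hG.1 x y k w1 w2 hk hw, hh_sc hG.1 x y l z1 z2 hl hz]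

/-- REL: the plane functions of a symbol satisfy the relations. -/
theorem hRel (ht : TTre) : TRel := by
  intro R _ r s G hG
  have k0 : (pfT G 0 : ZMod (3 ^ r) → ZMod (3 ^ s) → R) = edgeT 1 0 (-1) 1 G := by
    funext x y; rfl
  have k1 : (pfT G 1 : ZMod (3 ^ r) → ZMod (3 ^ s) → R) = edgeT (-3) 5 (-1) 1 G := by
    funext x y; rfl
  have k2 : (pfT G 2 : ZMod (3 ^ r) → ZMod (3 ^ s) → R) = edgeT (-1) 2 (-3) 5 G := by
    funext x y; rfl
  have k3 : (pfT G 3 : ZMod (3 ^ r) → ZMod (3 ^ s) → R) = edgeT 3 5 1 2 G := by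
    funext x y; rfl
  have k4 : (pfT G 4 : ZMod (3 ^ r) → ZMod (3 ^ s) → R) = edgeT 0 1 (-2) 5 G := by
    funext x y; rfl
  have k5 : (pfT G 5 : ZMod (3 ^ r) → ZMod (3 ^ s) → R) = edgeT (-2) 5 (-1) 2 G := by
    funext x y; rfl
  have k6 : (pfT G 6 : ZMod (3 ^ r) → ZMod (3 ^ s) → R) = edgeT 1 2 2 5 G := by
    funext x y; rfl
  have k7 : (pfT G 7 : ZMod (3 ^ r) → ZMod (3 ^ s) → R) = edgeT 7 5 1 1 G := by
    funext x y; rfl
  have k8 : (pfT G 8 : ZMod (3 ^ r) → ZMod (3 ^ s) → R) = edgeT 2 1 8 5 G := by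
    funext x y; rfl
  refine ⟨fun x y => ?_, fun x y => ?_, fun x y => ?_, fun x y => ?_, fun x y => ?_⟩
  · show (pfT G 5 : ZMod (3 ^ r) → ZMod (3 ^ s) → R) x y + tr 20 3 (-15) (-20) (pfT G 5) x y = 0
    rw [k5, tre ht hG x y 20 3 (-15) (-20) (-2) 5 (-1) 2 (-5) (-1) 2 1 (-2) 5
      (by unfold HTy; decide) (by simp) (by simp) (by norm_num) (by norm_num) (by simp) (by simp)
      (by norm_num) (by norm_num) (by norm_num) (by norm_num), edge_eq]
    abel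
  · show (pfT G 6 : ZMod (3 ^ r) → ZMod (3 ^ s) → R) x y + tr 20 (-3) 15 (-20) (pfT G 6) x y = 0
    rw [k6, tre ht hG x y 20 (-3) 15 (-20) 1 2 2 5 1 2 5 (-5) 1 2
      (by unfold HTy; decide) (by simp) (by simp) (by norm_num) (by norm_num) (by simp) (by simp)
      (by norm_num) (by norm_num) (by norm_num) (by norm_num), edge_eq]
    abel
  · show (pfT G 7 : ZMod (3 ^ r) → ZMod (3 ^ s) → R) x y + tr 20 (-9) 5 (-20) (pfT G 7) x y = 0
    rw [k7, tre ht hG x y 20 (-9) 5 (-20) 7 5 1 1 5 1 1 (-1) 7 5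
      (by unfold HTy; decide) (by simp) (by simp) (by norm_num) (by norm_num) (by simp) (by simp)
      (by norm_num) (by norm_num) (by norm_num) (by norm_num), edge_eq]
    abel
  · show (pfT G 8 : ZMod (3 ^ r) → ZMod (3 ^ s) → R) x y + tr 25 (-14) 5 (-25) (pfT G 8) x y = 0
    rw [k8, tre ht hG x y 25 (-14) 5 (-25) 2 1 8 5 1 8 5 (-5) 2 1
      (by unfold HTy; decide) (by simp) (by simp) (by norm_num) (by norm_num) (by simp) (by simp)
      (by norm_num) (by norm_num) (by norm_num) (by norm_num), edge_eq]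
    abel
  · have h0 := tre ht hG x y 1 1 0 1 1 0 (-1) 1 1 1 0 1 2 1
      (by unfold HTy; decide) (by simp) (by simp) (by norm_num) (by norm_num) (by simp) (by simp)
      (by norm_num) (by norm_num) (by norm_num) (by norm_num)
    have h1 := tre ht hG x y 5 1 5 10 (-3) 5 (-1) 1 5 0 1 (-1) 2 5
      (by unfold HTy; decide) (by simp) (by simp) (by norm_num) (by norm_num) (by simp) (by simp)
      (by norm_num) (by norm_num) (by norm_num) (by norm_num)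
    have h2 := tre ht hG x y 65 12 15 25 (-1) 2 (-3) 5 1 7 5 (-5) 3 2
      (by unfold HTy; decide) (by simp) (by simp) (by norm_num) (by norm_num) (by simp) (by simp)
      (by norm_num) (by norm_num) (by norm_num) (by norm_num)
    have h3 := tre ht hG x y 70 (-13) 15 (-25) 3 5 1 2 5 3 2 (-1) 8 5
      (by unfold HTy; decide) (by simp) (by simp) (by norm_num) (by norm_num) (by simp) (by simp)
      (by norm_num) (by norm_num) (by norm_num) (by norm_num)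
    have h4 := tre ht hG x y 10 1 5 5 0 1 (-2) 5 1 3 5 (-5) 1 1
      (by unfold HTy; decide) (by simp) (by simp) (by norm_num) (by norm_num) (by simp) (by simp)
      (by norm_num) (by norm_num) (by norm_num) (by norm_num)
    show (tr 1 1 0 1 (pfT G 0) x y - (pfT G 0 : ZMod (3 ^ r) → ZMod (3 ^ s) → R) x y) +
      ((pfT G 1 : ZMod (3 ^ r) → ZMod (3 ^ s) → R) x y - tr 5 1 5 10 (pfT G 1) x y) +
      ((pfT G 2 : ZMod (3 ^ r) → ZMod (3 ^ s) → R) x y - tr 65 12 15 25 (pfT G 2) x y) +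
      ((pfT G 3 : ZMod (3 ^ r) → ZMod (3 ^ s) → R) x y - tr 70 (-13) 15 (-25) (pfT G 3) x y) +
      ((pfT G 4 : ZMod (3 ^ r) → ZMod (3 ^ s) → R) x y - tr 10 1 5 5 (pfT G 4) x y) +
      (pfT G 5 : ZMod (3 ^ r) → ZMod (3 ^ s) → R) x y +
      (pfT G 6 : ZMod (3 ^ r) → ZMod (3 ^ s) → R) x y +
      (pfT G 7 : ZMod (3 ^ r) → ZMod (3 ^ s) → R) x y +
      (pfT G 8 : ZMod (3 ^ r) → ZMod (3 ^ s) → R) x y = 0
    rw [k0, k1, k2, k3, k4, k5, k6, k7, k8, h0, h1, h2, h3, h4]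
    simp only [edge_eq]
    abel

end Pool.Agent.Helper7.T53
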